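import Mathlib
import Pool.Agent.X137.Dice

/-! For every `n ≥ 1` and every die with integer labels, the probability that `n` divides the sum of
`n` independent tosses is at least `2 ^ (1 - n)`. -/

namespace Pool.Agent.Results.MP_652ce8_co.Dice

/-- The probability of the event `A` when the outcome is uniformly distributed over the finite set
`α` (number of favourable outcomes divided by number of all outcomes). -/
noncomputable def prob {α : Type} (A : Set α) : ℝ := (Nat.card A : ℝ) / (Nat.card α : ℝ)

/-- For every `n ≥ 1` and every die with a finite nonempty set of faces `F` and labels `f : F → ℤ`,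
if `n` tosses `x : Fin n → F` are made (uniformly distributed over all `n`-tuples of faces), then the
probability that `n` divides the sum of the labels shown is at least `1 / 2 ^ (n - 1)`. -/
theorem result (n : ℕ) (hn : 1 ≤ n) (F : Type) [Finite F] [Nonempty F] (f : F → ℤ) :
    (1 : ℝ) / 2 ^ (n - 1) ≤ prob {x : Fin n → F | (n : ℤ) ∣ ∑ i, f (x i)} := by
  classical
  have : Fintype F := Fintype.ofFinite F
  have h := Pool.Agent.X137.Dice.main n hn F f
  have hF : 0 < Fintype.card F := Fintype.card_pos
  unfold prob
  have h1 : (Nat.card (Fin n → F) : ℝ) = (Fintype.card F : ℝ) ^ n := by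
    rw [Nat.card_eq_fintype_card]; simp
  have h2 : Nat.card ({x : Fin n → F | (n : ℤ) ∣ ∑ i, f (x i)} : Set (Fin n → F)) =
      Pool.Agent.X137.Dice.cnt n f := rfl
  rw [h1, h2]
  rw [div_le_div_iff₀ (by positivity) (by positivity)]
  rw [one_mul]
  calc (Fintype.card F : ℝ) ^ n = (((Fintype.card F) ^ n : ℕ) : ℝ) := by push_cast; rfl
    _ ≤ ((2 ^ (n - 1) * Pool.Agent.X137.Dice.cnt n f : ℕ) : ℝ) := by exact_mod_cast h
    _ = (Pool.Agent.X137.Dice.cnt n f : ℝ) * 2 ^ (n - 1) := by push_cast; ring

end Pool.Agent.Results.MP_652ce8_co.Dice
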